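import Pool.Agent.H76.GM.Fe
import Pool.Agent.H76.GM.Q1

/-!
Let `M / K` be an extension of number fields of odd degree `n ≥ 3` whose Galois closure has the
symmetric or (if `n > 3`) the alternating group as Galois group. For the curve `E : y² = x³ + A x + B`
over `K` without point of order two, with discriminant not a square in the Galois closure, the
quadratic twists of `E` near to `D₀` have finite groups of points of odd order and Tate-Shafarevich
groups with trivial two-primary part over all number fields between `K` and `M` for many `D`,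
if and only if the two-Selmer ranks of the twist by `D₀` over `K` and over `M` are even. For almost all
curves it suffices that they have the same parity, and for the symmetric group this holds without
condition for all `D₀`.
-/

set_option autoImplicit false
open scoped Classical

namespace Pool.Agent.Results.MP_78d38b_nt.GenericExtensions

open NumberField WeierstrassCurve IsDedekindDomain Pool.Agent.H10

/-- The pairs `(A, B)` of algebraic integers of `K` of height at most `X`: the absolute values of all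
complex conjugates of `A` are at most `X²` and those of `B` are at most `X³`. -/
def Box (K : Type) [Field K] [NumberField K] (X : ℝ) : Set (𝓞 K × 𝓞 K) :=
  {p | ∀ s : K →+* ℂ, ‖s (p.1 : K)‖ ≤ X ^ 2 ∧ ‖s (p.2 : K)‖ ≤ X ^ 3}

/-- Every cyclic permutation of three embeddings of `M` in `N` over `K` is induced by an automorphism
of `N`, and if `[M : K] = 3` then every transposition of two embeddings, too. -/
structure Generic (K M N : Type) [Field K] [Field M] [Field N] [Algebra K M] [Algebra K N] :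
    Prop where
  cyc : ∀ o₁ o₂ o₃ : M →ₐ[K] N, o₁ ≠ o₂ → o₂ ≠ o₃ → o₃ ≠ o₁ → ∃ g : N ≃ₐ[K] N,
    g.toAlgHom.comp o₁ = o₂ ∧ g.toAlgHom.comp o₂ = o₃ ∧ g.toAlgHom.comp o₃ = o₁ ∧
    ∀ o : M →ₐ[K] N, o ≠ o₁ → o ≠ o₂ → o ≠ o₃ → g.toAlgHom.comp o = o
  swap : Module.finrank K M = 3 → ∀ o₁ o₂ : M →ₐ[K] N, o₁ ≠ o₂ → ∃ g : N ≃ₐ[K] N,
    g.toAlgHom.comp o₁ = o₂ ∧ g.toAlgHom.comp o₂ = o₁

/-- Some transposition of two embeddings of `M` in `N` over `K` is induced by an automorphism of `N`. -/
def Transposition (K M N : Type) [Field K] [Field M] [Field N] [Algebra K M] [Algebra K N] : Prop :=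
  ∃ (g : N ≃ₐ[K] N) (o₁ o₂ : M →ₐ[K] N), o₁ ≠ o₂ ∧ g.toAlgHom.comp o₁ = o₂ ∧
    g.toAlgHom.comp o₂ = o₁ ∧ ∀ o : M →ₐ[K] N, o ≠ o₁ → o ≠ o₂ → g.toAlgHom.comp o = o

/-- `x³ + A x + B` has no root in `K` and `-(4 A³ + 27 B²)` is not a square in `N`, where
`p = (A, B)`. -/
def Full (K N : Type) [Field K] [NumberField K] [Field N] [Algebra K N] (p : 𝓞 K × 𝓞 K) : Prop :=
  (∀ t : K, t ^ 3 + (p.1 : K) * t + (p.2 : K) ≠ 0) ∧
    ¬ IsSquare (algebraMap K N (-(4 * (p.1 : K) ^ 3 + 27 * (p.2 : K) ^ 2)))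

variable {K : Type} [Field K] [NumberField K]

/-- The quadratic twist `E_D : y² = x³ + D² A x + D³ B` over the extension `F` of `K`, where
`p = (A, B)`. -/
def curve (p : 𝓞 K × 𝓞 K) (D : K) (F : Type) [Field F] [Algebra K F] : WeierstrassCurve F :=
  ⟨0, 0, 0, algebraMap K F (D ^ 2 * p.1), algebraMap K F (D ^ 3 * p.2)⟩

/-- The group `E_D(F)` is finite of odd order and the Tate-Shafarevich group of `E_D` over `F` has no
nontrivial element of two-power order. -/
def Triv (p : 𝓞 K × 𝓞 K) (D : K) (F : Type) [Field F] [NumberField F] [Algebra K F] : Prop :=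
  Finite (curve p D F).toAffine.Point ∧ Odd (Nat.card (curve p D F).toAffine.Point) ∧
    Sha2Trivial F (curve p D F)

/-- `Triv` holds over all number fields between `K` and `M`. -/
def TrivOver (M : Type) [Field M] [Algebra K M] (p : 𝓞 K × 𝓞 K) (D : K) : Prop :=
  ∀ (F : Type) [Field F] [NumberField F] [Algebra K F] [Algebra F M] [IsScalarTower K F M],
    Triv p D F

section Selmer

variable {F : Type} [Field F] [NumberField F]

/-- Functions on the Galois group of `F` with values in `W(F̄)`. -/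
abbrev Fun (W : WeierstrassCurve F) : Type :=
  (AlgebraicClosure F ≃ₐ[F] AlgebraicClosure F) →
    (W.baseChange (AlgebraicClosure F)).toAffine.Point

/-- The locally constant one-cocycles with values in the points killed by two which become
coboundaries in `W` over all completions of `F`. -/
def IsSel (W : WeierstrassCurve F) (f : Fun W) : Prop :=
  IsCocycle F W f ∧ IsLocTriv F W f ∧ ∀ σ, f σ + f σ = 0

/-- The difference is the coboundary of a point killed by two. -/
def Cohom (W : WeierstrassCurve F) (f g : {f : Fun W // IsSel W f}) : Prop :=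
  ∃ T : (W.baseChange (AlgebraicClosure F)).toAffine.Point,
    T + T = 0 ∧ ∀ σ : AlgebraicClosure F ≃ₐ[F] AlgebraicClosure F,
      f.1 σ - g.1 σ = (WeierstrassCurve.Affine.Point.map σ.toAlgHom :
        (W.baseChange (AlgebraicClosure F)).toAffine.Point →+
          (W.baseChange (AlgebraicClosure F)).toAffine.Point) T - T

end Selmer

/-- The two-Selmer rank of `E_D` over `F` is even: the two-Selmer group of `E_D` over `F` has order
`4 ^ k` for some `k`. -/
def EvenRank (F : Type) [Field F] [NumberField F] [Algebra K F] (p : 𝓞 K × 𝓞 K) (D : K) : Prop :=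
  ∃ k : ℕ, Nat.card (Quot (Cohom (curve p D F))) = 4 ^ k

/-- `D ≠ 0`, and `D / D₀` is a square in the completions at the primes of `S` and positive at the real
places outside `R`. -/
def Near (S : Finset (HeightOneSpectrum (𝓞 K))) (R : Set (K →+* ℝ)) (D₀ D : K) : Prop :=
  D ≠ 0 ∧ (∀ v ∈ S, IsSquare (algebraMap K (v.adicCompletion K) (D / D₀))) ∧
    ∀ s : K →+* ℝ, s ∉ R → 0 < s (D / D₀)

/-- The elements `D` of `𝓞 K` which are near to `D₀`, for which `TrivOver` holds, and for which the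
absolute values of all complex conjugates of `D` are at most `X`. -/
def Good (M : Type) [Field M] [Algebra K M] (p : 𝓞 K × 𝓞 K) (S : Finset (HeightOneSpectrum (𝓞 K)))
    (R : Set (K →+* ℝ)) (D₀ : K) (X : ℝ) : Set (𝓞 K) :=
  {D | Near S R D₀ (D : K) ∧ TrivOver M p (D : K) ∧ ∀ s : K →+* ℂ, ‖s (D : K)‖ ≤ X}

/-- For some `c > 0` and all large `X` there are at least `X ^ n / (log X) ^ (1 - c)` elements `D` of
`Good`, pairwise different modulo squares, where `n` is the degree of `K`. -/
def Many (M : Type) [Field M] [Algebra K M] (p : 𝓞 K × 𝓞 K) (S : Finset (HeightOneSpectrum (𝓞 K)))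
    (R : Set (K →+* ℝ)) (D₀ : K) : Prop :=
  ∃ c : ℝ, 0 < c ∧ ∃ X₀ : ℝ, ∀ X : ℝ, X₀ ≤ X → ∃ F : Finset (𝓞 K),
    (∀ D ∈ F, D ∈ Good M p S R D₀ X) ∧
    (∀ D ∈ F, ∀ D' ∈ F, IsSquare ((D : K) * (D' : K)) → D = D') ∧
    X ^ Module.finrank ℚ K / Real.log X ^ (1 - c) ≤ (F.card : ℝ)

/-- `v` does not divide six, `4 A³ + 27 B²` has order one at `v`, and `v` is unramified in `M`. -/
def Mult (M : Type) [Field M] [NumberField M] [Algebra K M] (p : 𝓞 K × 𝓞 K)
    (v : HeightOneSpectrum (𝓞 K)) : Prop :=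
  (6 : 𝓞 K) ∉ v.asIdeal ∧ 4 * p.1 ^ 3 + 27 * p.2 ^ 2 ∈ v.asIdeal ∧
    4 * p.1 ^ 3 + 27 * p.2 ^ 2 ∉ v.asIdeal ^ 2 ∧
    ∀ w : HeightOneSpectrum (𝓞 M), ¬ v.asIdeal.map (algebraMap (𝓞 K) (𝓞 M)) ≤ w.asIdeal ^ 2

/-- The number of places of `M` above `v` of even residue degree is odd. -/
def OddPlaces (M : Type) [Field M] [NumberField M] [Algebra K M] (v : HeightOneSpectrum (𝓞 K)) :
    Prop :=
  Odd (Nat.card {w : HeightOneSpectrum (𝓞 M) // w.asIdeal.under (𝓞 K) = v.asIdeal ∧
    Even (w.asIdeal.inertiaDeg (𝓞 K))})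

/-- Finite abelian groups of odd order. -/
private theorem odd_iff {G : Type} [AddCommGroup G] [Finite G] :
    Odd (Nat.card G) ↔ ∀ P : G, P + P = 0 → P = 0 := by
  constructor
  · intro h P hP
    have h1 : addOrderOf P ∣ 2 := addOrderOf_dvd_of_nsmul_eq_zero (by rw [two_nsmul, hP])
    rcases (Nat.dvd_prime Nat.prime_two).1 h1 with h2 | h2
    · exact AddMonoid.addOrderOf_eq_one_iff.1 h2
    · exfalso
      have h3 := addOrderOf_dvd_natCard P
      rw [h2] at h3
      exact (Nat.not_even_iff_odd.2 h) (even_iff_two_dvd.2 h3)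
  · intro h
    rw [← Nat.not_even_iff_odd, even_iff_two_dvd]
    intro h2
    obtain ⟨P, hP⟩ := exists_prime_addOrderOf_dvd_card' 2 h2
    have h3 : P + P = 0 := by
      rw [← two_nsmul, ← hP]
      exact addOrderOf_nsmul_eq_zero P
    rw [h P h3, addOrderOf_zero] at hP
    norm_num at hP

omit [NumberField K] in
private theorem triv_iff {p : 𝓞 K × 𝓞 K} {D : K} {F : Type} [Field F] [NumberField F]
    [Algebra K F] : Triv p D F ↔
      H30ZO.Tv F (algebraMap K F (D ^ 2 * (p.1 : K))) (algebraMap K F (D ^ 3 * (p.2 : K))) := by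
  constructor
  · rintro ⟨h1, h2, h3⟩
    exact ⟨h1, (@odd_iff _ _ h1).1 h2, h3⟩
  · rintro ⟨h1, h2, h3⟩
    exact ⟨h1, (@odd_iff _ _ h1).2 h2, h3⟩

private theorem over_iff {p : 𝓞 K × 𝓞 K} {D : K} {M : Type} [Field M] [NumberField M]
    [Algebra K M] : TrivOver M p D ↔ H76GM.TvB K M p.1 p.2 D :=
  ⟨fun h F _ _ _ _ _ => triv_iff.1 (h F), fun h F _ _ _ _ _ => triv_iff.2 (h F)⟩

private theorem even_iff {p : 𝓞 K × 𝓞 K} {D : K} {F : Type} [Field F] [NumberField F]
    [Algebra K F] : EvenRank F p D ↔ H76GM.EvS K F p.1 p.2 D :=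
  Iff.rfl

private theorem near_iff {S : Finset (HeightOneSpectrum (𝓞 K))} {R : Set (K →+* ℝ)} {D₀ D : K} :
    Near S R D₀ D ↔ H76GM.NearR K S R D₀ D :=
  ⟨fun h => ⟨h.1, h.2.1, h.2.2⟩, fun h => ⟨h.ne, h.sq, h.pos⟩⟩

/-- One element gives many. -/
private theorem many_one {M N : Type} [Field M] [NumberField M] [Field N] [NumberField N]
    [Algebra K M] [Algebra K N] [Algebra M N] [IsScalarTower K M N] [IsGalois K N]
    (hodd : Odd (Module.finrank K M)) {p : 𝓞 K × 𝓞 K} (hp : Full K N p)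
    {S : Finset (HeightOneSpectrum (𝓞 K))} {R : Set (K →+* ℝ)} {D₀ : K} (h0 : D₀ ≠ 0)
    (h : H76GM.ManyR K M p.1 p.2 S R D₀) : Many M p S R D₀ := by
  obtain ⟨f, h1, -⟩ := h
  obtain ⟨c, hc, X₀, h2⟩ := H76GM.many_quant (N := N) hodd hp.1 hp.2 h0 (h1 0).1 (h1 0).2
  refine ⟨c, hc, X₀, fun X hX => ?_⟩
  obtain ⟨F, g1, g2, g3⟩ := h2 X hX
  exact ⟨F, fun D hD => ⟨near_iff.2 (g3 D hD).2.1, over_iff.2 (g3 D hD).2.2, (g3 D hD).1⟩, g2, g1⟩

/-- There is an element. -/
private theorem one_of_many {M : Type} [Field M] [NumberField M] [Algebra K M] {p : 𝓞 K × 𝓞 K}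
    {S : Finset (HeightOneSpectrum (𝓞 K))} {R : Set (K →+* ℝ)} {D₀ : K} (h : Many M p S R D₀) :
    ∃ D : K, Near S R D₀ D ∧ TrivOver M p D := by
  obtain ⟨c, -, X₀, h1⟩ := h
  obtain ⟨F, h2, -, h3⟩ := h1 (max X₀ 2) (le_max_left _ _)
  have hX : (2 : ℝ) ≤ max X₀ 2 := le_max_right _ _
  have h4 : 0 < Real.log (max X₀ 2) := Real.log_pos (by linarith)
  have h5 : (0 : ℝ) < (F.card : ℝ) := lt_of_lt_of_le
    (div_pos (pow_pos (by linarith) _) (Real.rpow_pos_of_pos h4 _)) h3
  obtain ⟨D, hD⟩ := Finset.card_pos.1 (Nat.cast_pos.1 h5)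
  exact ⟨(D : K), (h2 D hD).1, (h2 D hD).2.1⟩

omit [NumberField K] in
private theorem gen_iff {M N : Type} [Field M] [Field N] [Algebra K M] [Algebra K N]
    (h : Generic K M N) : H76GM.Gen K M N :=
  ⟨h.cyc, h.swap⟩

private theorem mult {M : Type} [Field M] [NumberField M] [Algebra K M] {p : 𝓞 K × 𝓞 K}
    {v : HeightOneSpectrum (𝓞 K)} (h : Mult M p v) : H76GM.MulM M p.1 p.2 v := by
  obtain ⟨h1, h2, h3, h4⟩ := h
  refine H76GM.mul_of h1 h2 h3 fun w hw x hx => ?_
  have h5 : ¬ H73P2.Ram K w := fun h => h4 w (by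
    rw [← hw]
    exact h)
  have h6 := H73P2.unram_ord h5 hx
  rw [hw] at h6
  exact h6

omit [NumberField K] in
private theorem odd_places {M : Type} [Field M] [NumberField M] [Algebra K M]
    {v : HeightOneSpectrum (𝓞 K)} {P : Finset (HeightOneSpectrum (𝓞 M))}
    (hP : ∀ w, w ∈ P ↔ H76PP.dn K w = v) :
    OddPlaces M v ↔ Odd (P.filter fun w => Even (w.asIdeal.inertiaDeg (𝓞 K))).card := by
  have h1 : Nat.card {w : HeightOneSpectrum (𝓞 M) // w.asIdeal.under (𝓞 K) = v.asIdeal ∧
      Even (w.asIdeal.inertiaDeg (𝓞 K))} =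
      (P.filter fun w => Even (w.asIdeal.inertiaDeg (𝓞 K))).card := by
    refine Nat.subtype_card _ fun w => ?_
    rw [Finset.mem_filter, hP]
    exact and_congr_left fun _ => ⟨fun h => by rw [← h]; rfl, fun h => HeightOneSpectrum.ext h⟩
  rw [← h1]
  exact Iff.rfl

/-- Let `M / K` be an extension of number fields of odd degree `n ≥ 3` and `N` a Galois extension of `K`
which contains `M` such that all cyclic permutations of three embeddings of `M` in `N` are induced by
automorphisms of `N` and, if `n = 3`, all transpositions; for `n > 3` this means that the Galois group of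
the Galois closure of `M / K` is the symmetric or the alternating group, and for `n = 3` that it is the
symmetric group.
(1) Let `E` be `Full`, `D₀ ∈ K` nonzero and `R` a set of real places of `K`. For a finite set `S₀` of
primes the following are equivalent: the two-Selmer ranks of `E_{D₀}` over `K` and `M` are even, or `R` is
not empty and they have the same parity; there is `D` near to `D₀` (for `S₀` and `R`) with `TrivOver`;
for every finite set `S` of primes there are many such `D` (`Many`: modulo squares at least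
`X ^ d / (log X) ^ (1 - c)` up to `X`, with `d = [K : ℚ]` and some `c > 0`).
(2) Let `E` be `Full` and `v` a prime as in `Mult` outside `S`. If the number of places of `M` above `v`
of even residue degree is odd then for all `D₀` and all nonempty `R` there are many such `D`,
and if there is another prime as in `Mult` outside `S` then the same holds for all `R`. If the number of
these places is even then there are many such `D` for all `D₀` for which the two-Selmer ranks
of `E_{D₀}` over `K` and `M` have the same parity, and all `R`.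
(3) For all `S` and `ε > 0`, all but at most `ε * #(Box K X)` curves in `Box K X`, `X ≥ X₀`, are `Full`
and have many such `D` for all `R` and all `D₀` for which the two-Selmer ranks of `E_{D₀}` over
`K` and `M` have the same parity; if some transposition of two embeddings is induced by an automorphism
of `N` (so the Galois group of the Galois closure is the symmetric group), even for all `D₀`. -/
theorem result (K M N : Type) [Field K] [NumberField K] [Field M] [NumberField M] [Field N]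
    [NumberField N] [Algebra K M] [Algebra K N] [Algebra M N] [IsScalarTower K M N]
    [IsGalois K N] (hodd : Odd (Module.finrank K M)) (h1 : Module.finrank K M ≠ 1)
    (hgen : Generic K M N) :
    (∀ p : 𝓞 K × 𝓞 K, Full K N p → ∀ (D₀ : K) (R : Set (K →+* ℝ)), D₀ ≠ 0 →
      ∃ S₀ : Finset (HeightOneSpectrum (𝓞 K)),
        List.TFAE [(EvenRank K p D₀ ∧ EvenRank M p D₀) ∨
            (R.Nonempty ∧ (EvenRank K p D₀ ↔ EvenRank M p D₀)),
          ∃ D : K, Near S₀ R D₀ D ∧ TrivOver M p D,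
          ∀ S : Finset (HeightOneSpectrum (𝓞 K)), Many M p S R D₀]) ∧
    (∀ p : 𝓞 K × 𝓞 K, Full K N p → ∀ (S : Finset (HeightOneSpectrum (𝓞 K)))
      (v : HeightOneSpectrum (𝓞 K)), v ∉ S → Mult M p v → ∀ D₀ : K, D₀ ≠ 0 →
        (OddPlaces M v → (∀ R : Set (K →+* ℝ), R.Nonempty → Many M p S R D₀) ∧
          ∀ v' : HeightOneSpectrum (𝓞 K), v' ≠ v → v' ∉ S → Mult M p v' →
            ∀ R : Set (K →+* ℝ), Many M p S R D₀) ∧
        (¬ OddPlaces M v → (EvenRank K p D₀ ↔ EvenRank M p D₀) →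
          ∀ R : Set (K →+* ℝ), Many M p S R D₀)) ∧
    ∀ (S : Finset (HeightOneSpectrum (𝓞 K))) (ε : ℝ), 0 < ε →
      ∃ X₀ : ℝ, ∀ X : ℝ, X₀ ≤ X → (Box K X).Finite ∧
        ({p : 𝓞 K × 𝓞 K | p ∈ Box K X ∧ ¬ (Full K N p ∧ ∀ D₀ : K, D₀ ≠ 0 →
          ((EvenRank K p D₀ ↔ EvenRank M p D₀) ∨ Transposition K M N) →
          ∀ R : Set (K →+* ℝ), Many M p S R D₀)}.ncard : ℝ) ≤ ε * ((Box K X).ncard : ℝ) := by
  refine ⟨fun p hp D₀ R h0 => ?_, fun p hp S v hvS hv D₀ h0 => ?_, fun S ε hε => ?_⟩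
  · obtain ⟨S₀, hS₀⟩ := H76GM.conv_R (M := M) (N := N) hodd hp.1 hp.2 h0 R
    refine ⟨S₀, ?_⟩
    tfae_have 1 → 3 := by
      rintro (⟨hK, hM⟩ | ⟨hR, hKM⟩) S
      · exact many_one hodd hp h0 (H76GM.many_even hodd h1 (gen_iff hgen) hp.1 hp.2 h0 hK hM S R)
      · exact many_one hodd hp h0 (H76GM.many_real hodd h1 (gen_iff hgen) hp.1 hp.2 h0 hKM S hR)
    tfae_have 3 → 2 := fun h => one_of_many (h S₀)
    tfae_have 2 → 1 := by
      rintro ⟨D, h1, h2⟩
      exact hS₀ D (near_iff.1 h1) (over_iff.1 h2)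
    tfae_finish
  · obtain ⟨P, hP⟩ := H76GM.exists_P M v
    refine ⟨fun hv2 => ?_, fun hv2 hKM R => ?_⟩
    · obtain ⟨g1, g2⟩ := H76GM.many_mul hodd h1 (gen_iff hgen) hp.1 hp.2 (mult hv) hP
        ((odd_places hP).1 hv2) h0 S hvS
      exact ⟨fun R hR => many_one hodd hp h0 (g1 R hR), fun v' h3 h4 h5 R =>
        many_one hodd hp h0 (g2 v' h3 h4 (mult h5) R)⟩
    · rw [odd_places hP, Nat.not_odd_iff_even] at hv2
      exact many_one hodd hp h0 (H76GM.many_same hodd h1 (gen_iff hgen) hp.1 hp.2 (mult hv) hP hv2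
        h0 S hvS hKM R)
  · have hg : Transposition K M N → ∃ g : N ≃ₐ[K] N,
        Equiv.Perm.sign (H76GM.pm K M N g) ≠ 1 := by
      rintro ⟨g, o₁, o₂, t1, t2, t3, t4⟩
      refine ⟨g, ?_⟩
      have e : H76GM.pm K M N g = Equiv.swap o₁ o₂ := by
        ext1 o
        by_cases e1 : o = o₁
        · rw [e1, Equiv.swap_apply_left]
          exact t2
        by_cases e2 : o = o₂
        · rw [e2, Equiv.swap_apply_right]
          exact t3
        rw [Equiv.swap_apply_of_ne_of_ne e1 e2]
        exact t4 o e1 e2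
      rw [e, Equiv.Perm.sign_swap t1]
      decide
    obtain ⟨X₀, h2⟩ := H76GM.dens_all hodd h1 (gen_iff hgen) S hε
    refine ⟨X₀, fun X hX => ?_⟩
    have hbox : Box K X = H76PP.Bx K X := by
      ext p
      exact ⟨fun h => ⟨fun s => (h s).1, fun s => (h s).2⟩, fun h s => ⟨h.1 s, h.2 s⟩⟩
    rw [hbox]
    refine ⟨H76PP.Bx_fin K X, ?_⟩
    refine le_trans (Nat.cast_le.2 ?_) (h2 X hX)
    refine Set.ncard_le_ncard ?_ ((H76PP.Bx_fin K X).subset fun p hp => hp.1)
    rintro p ⟨hp, hno⟩
    refine ⟨hp, fun hh => hno ⟨⟨hh.1, hh.2.1⟩, fun D₀ h0 hor R => ?_⟩⟩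
    exact many_one hodd ⟨hh.1, hh.2.1⟩ h0 (hh.2.2 D₀ h0 (hor.imp (fun h => h) hg) R)

end Pool.Agent.Results.MP_78d38b_nt.GenericExtensions
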