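import Pool.Agent.H76.XP.X9
import Pool.Agent.H76.YP.Y8
import Pool.Agent.H76.YP.Y10

/-!
Let `K` be a number field and `F / K` a Galois extension, finite or infinite, such that in all finite
Galois extensions `M / K` inside `F` the degree is a power of two and the decomposition groups of the
primes above `2` are abelian and all their subgroups are normal in `Gal(M / K)`; for example, any finite
abelian extension of two-power degree.  If `F / K` is infinite, suppose also that it is ramified at
finitely many primes, that infinitely many primes of `K` split completely in `F`, and that every prime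
above `2` splits completely in `F` or has an open virtually procyclic decomposition group which is
cyclic, or ramified in the procyclic direction; for example, `F` can be any `ℤ₂`-extension of `K` in
which infinitely many primes split completely, such as the anticyclotomic `ℤ₂`-extensions of imaginary
quadratic fields.  Then for a positive proportion of the elliptic curves `E` over `K` the groups `E(M)`
and the two-primary parts of the Tate-Shafarevich groups of `E` over `M` are finite for all number
fields `M` between `K` and `F`; the same curves work for all number fields between `K` and `L F` and all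
twists by elements of `M` with a square root in `L F`, for all admissible extensions `L / K`, finite or
infinite.
-/

set_option autoImplicit false
open scoped Classical

namespace Pool.Agent.Results.MP_78d38b_nt.TwoPowerExtensions

open NumberField WeierstrassCurve IsDedekindDomain Pool.Agent.H10

/-- The pairs `(A, B)` of algebraic integers of `K` of height at most `X`: the absolute values of all
complex conjugates of `A` are at most `X²` and those of `B` are at most `X³`. -/
def Box (K : Type) [Field K] [NumberField K] (X : ℝ) : Set (𝓞 K × 𝓞 K) :=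
  {p | ∀ s : K →+* ℂ, ‖s (p.1 : K)‖ ≤ X ^ 2 ∧ ‖s (p.2 : K)‖ ≤ X ^ 3}

/-- The decomposition group over `K` of a prime `w` of the number field `M`. -/
def Dec (K : Type) {M : Type} [Field K] [Field M] [NumberField M] [Algebra K M]
    (w : HeightOneSpectrum (𝓞 M)) : Subgroup (M ≃ₐ[K] M) where
  carrier := {σ | ∀ x : M, w.valuation M (σ x) = w.valuation M x}
  mul_mem' := fun {σ τ} hσ hτ x => (hσ (τ x)).trans (hτ x)
  one_mem' := fun _ => rfl
  inv_mem' := fun {σ} hσ x => by
    have h := hσ (σ⁻¹ x)
    have h2 : σ (σ⁻¹ x) = x := σ.apply_symm_apply x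
    rw [h2] at h
    exact h.symm

/-- The inertia group over `K` of a prime `w` of the number field `M`. -/
def Inertia (K : Type) {M : Type} [Field K] [Field M] [NumberField M] [Algebra K M]
    (w : HeightOneSpectrum (𝓞 M)) : Set (M ≃ₐ[K] M) :=
  {τ | ∀ x : 𝓞 M, τ • x - x ∈ w.asIdeal}

variable {K : Type} [Field K] [NumberField K]

/-- The quadratic twist `E_m : y² = x³ + m² A x + m³ B` over the extension `M` of `K` by an element `m`
of `M`, where `p = (A, B)`. -/
def twist (p : 𝓞 K × 𝓞 K) (M : Type) [Field M] [Algebra K M] (m : M) : WeierstrassCurve M :=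
  ⟨0, 0, 0, m ^ 2 * algebraMap K M (p.1 : K), m ^ 3 * algebraMap K M (p.2 : K)⟩

/-- The group `E_d(M)` is finite of odd order and the Tate-Shafarevich group of `E_d` over `M` has no
nontrivial element of two-power order. -/
def Triv (p : 𝓞 K × 𝓞 K) (d : 𝓞 K) (M : Type) [Field M] [NumberField M] [Algebra K M] : Prop :=
  Finite (twist p M (algebraMap K M (d : K))).toAffine.Point ∧
    Odd (Nat.card (twist p M (algebraMap K M (d : K))).toAffine.Point) ∧
    Sha2Trivial M (twist p M (algebraMap K M (d : K)))

/-- The two-primary part of the Tate-Shafarevich group of `W` over `M` is finite: the locally constant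
cocycles which are coboundaries at all places and of which a multiple by a power of two is a coboundary
fall into finitely many classes modulo coboundaries. -/
def TwoPartFinite (M : Type) [Field M] [NumberField M] (W : WeierstrassCurve M) : Prop :=
  ∃ S : Set ((AlgebraicClosure M ≃ₐ[M] AlgebraicClosure M) →
      (W.baseChange (AlgebraicClosure M)).toAffine.Point), S.Finite ∧
    ∀ f : (AlgebraicClosure M ≃ₐ[M] AlgebraicClosure M) →
        (W.baseChange (AlgebraicClosure M)).toAffine.Point,
      IsCocycle M W f → IsLocTriv M W f → (∃ m : ℕ, IsCobound M W (fun σ => (2 ^ m) • f σ)) →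
      ∃ g ∈ S, IsCobound M W (fun σ => f σ - g σ)

variable (K) in
/-- The primes of `K` which split completely in the Galois extension `L`. -/
def Split (L : Type) [Field L] [Algebra K L] : Set (HeightOneSpectrum (𝓞 K)) :=
  {v | ∃ i : L →+* v.adicCompletion K, ∀ x : K,
    i (algebraMap K L x) = algebraMap K (v.adicCompletion K) x}

variable (K) in
/-- The primes of `K` which are ramified in some number field between `K` and `L`. -/
def Ramified (L : Type) [Field L] [Algebra K L] : Set (HeightOneSpectrum (𝓞 K)) :=
  {v | ∃ (M : IntermediateField K L) (_ : NumberField M) (V : HeightOneSpectrum (𝓞 M)),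
    V.asIdeal.under (𝓞 K) = v.asIdeal ∧ v.asIdeal.map (algebraMap (𝓞 K) (𝓞 M)) ≤ V.asIdeal ^ 2}

/-- The extension `L / K`, finite or infinite, is admissible for the set `S` of primes and the curve of
`p = (A, B)`: it is Galois, the finite Galois extensions of `K` inside `L` have two-power degree, and
every prime `v` of `K` splits completely in `L`, or `v` does not divide `2` and `x³ + A x + B` has no root
modulo `v`, or `v` is not in `S` and is unramified in `L`. -/
structure Admissible (S : Finset (HeightOneSpectrum (𝓞 K))) (p : 𝓞 K × 𝓞 K) (L : Type) [Field L]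
    [Algebra K L] : Prop where
  gal : IsGalois K L
  deg : ∀ (M : IntermediateField K L) [NumberField M], IsGalois K M →
    ∃ r : ℕ, Module.finrank K M = 2 ^ r
  loc : ∀ v : HeightOneSpectrum (𝓞 K), v ∈ Split K L ∨
    ((2 : 𝓞 K) ∉ v.asIdeal ∧ ∀ t : 𝓞 K, t ^ 3 + p.1 * t + p.2 ∉ v.asIdeal) ∨
    (v ∉ S ∧ v ∉ Ramified K L)

/-- The curve `E` of `p` is an elliptic curve; the Galois extensions of `K` inside `F` in which the primes
above `2` split completely are admissible; for every admissible `L / K` the twists `E_d` of `E` by the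
elements `d` of `K` with a square root in `F` satisfy `Triv` over all number fields between `K` and `L`;
and if `F'` is a compositum of `L` and `F`, then for all number fields `M` between `K` and `F'` and all
`m ≠ 0` in `M` with a square root in `F'` (for example, `m = 1`), `E_m(M)` and the two-primary part of the
Tate-Shafarevich group of `E_m` over `M` are finite. -/
structure Good (F : Type) [Field F] [Algebra K F] (S : Finset (HeightOneSpectrum (𝓞 K)))
    (p : 𝓞 K × 𝓞 K) : Prop where
  ell : 4 * p.1 ^ 3 + 27 * p.2 ^ 2 ≠ 0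
  adm : ∀ N : IntermediateField K F, IsGalois K N →
    (∀ v : HeightOneSpectrum (𝓞 K), (2 : 𝓞 K) ∈ v.asIdeal → v ∈ Split K N) → Admissible S p N
  triv : ∀ (L : Type) [Field L] [Algebra K L], Admissible S p L →
    ∀ d : 𝓞 K, d ≠ 0 → IsSquare (algebraMap K F (d : K)) →
      ∀ (M : IntermediateField K L) [NumberField M], Triv p d M
  fin : ∀ (L F' : Type) [Field L] [Field F'] [Algebra K L] [Algebra K F'] [Algebra L F']
    [Algebra F F'] [IsScalarTower K L F'] [IsScalarTower K F F'], Admissible S p L →
    IntermediateField.adjoin L (Set.range (algebraMap F F')) = ⊤ →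
    ∀ (M : IntermediateField K F') [NumberField M] (m : M), m ≠ 0 → IsSquare (m : F') →
      Finite (twist p M m).toAffine.Point ∧ TwoPartFinite M (twist p M m)

variable (K) in
/-- The prime `p` of `K` has property (V) in the Galois extension `F` of `K`: there is an `n` such that
for all number fields `M` between `K` and `F` which are Galois over `K` and all primes `w` of `M` above `p`
the decomposition group `Dec K w` contains an element which generates a subgroup of `Gal(M / K)` of index
at most `2 ^ n`; and either all these decomposition groups are cyclic, or for all `M`, `w` and all `σ` in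
`Dec K w` there is a `τ` in the inertia group of `w` with `σ ^ (2 ^ n) = τ ^ (2 ^ n)`. -/
def PropV (F : Type) [Field F] [Algebra K F] (p : HeightOneSpectrum (𝓞 K)) : Prop :=
  ∃ n : ℕ,
    (∀ (M : IntermediateField K F) [NumberField M], IsGalois K M →
      ∀ w : HeightOneSpectrum (𝓞 M), w.asIdeal.under (𝓞 K) = p.asIdeal →
        ∃ σ ∈ Dec K w, (Subgroup.zpowers σ).index ≤ 2 ^ n) ∧
    ((∀ (M : IntermediateField K F) [NumberField M], IsGalois K M →
        ∀ w : HeightOneSpectrum (𝓞 M), w.asIdeal.under (𝓞 K) = p.asIdeal → IsCyclic (Dec K w)) ∨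
      ∀ (M : IntermediateField K F) [NumberField M], IsGalois K M →
        ∀ w : HeightOneSpectrum (𝓞 M), w.asIdeal.under (𝓞 K) = p.asIdeal →
          ∀ σ ∈ Dec K w, ∃ τ ∈ Inertia K w, σ ^ 2 ^ n = τ ^ 2 ^ n)

/-- Finite abelian groups of odd order. -/
private theorem odd_iff {G : Type} [AddCommGroup G] [Finite G] :
    Odd (Nat.card G) ↔ ∀ P : G, P + P = 0 → P = 0 := by
  constructor
  · intro h P hP
    have h1 : addOrderOf P ∣ 2 := addOrderOf_dvd_of_nsmul_eq_zero (by rw [two_nsmul, hP])
    rcases (Nat.dvd_prime Nat.prime_two).1 h1 with h2 | h2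
    · exact AddMonoid.addOrderOf_eq_one_iff.1 h2
    · exfalso
      have h3 := addOrderOf_dvd_natCard P
      rw [h2] at h3
      exact (Nat.not_even_iff_odd.2 h) (even_iff_two_dvd.2 h3)
  · intro h
    rw [← Nat.not_even_iff_odd, even_iff_two_dvd]
    intro h2
    obtain ⟨P, hP⟩ := exists_prime_addOrderOf_dvd_card' 2 h2
    have h3 : P + P = 0 := by
      rw [← two_nsmul, ← hP]
      exact addOrderOf_nsmul_eq_zero P
    rw [h P h3, addOrderOf_zero] at hP
    norm_num at hP

omit [NumberField K] in
private theorem triv_iff {p : 𝓞 K × 𝓞 K} {d : 𝓞 K} {M : Type} [Field M] [NumberField M]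
    [Algebra K M] : Triv p d M ↔ H30ZO.Tv M (algebraMap K M ((d ^ 2 * p.1 : 𝓞 K) : K))
      (algebraMap K M ((d ^ 3 * p.2 : 𝓞 K) : K)) := by
  have e : twist p M (algebraMap K M (d : K)) =
      ⟨0, 0, 0, algebraMap K M ((d ^ 2 * p.1 : 𝓞 K) : K),
        algebraMap K M ((d ^ 3 * p.2 : 𝓞 K) : K)⟩ := by
    have e1 : ((d ^ 2 * p.1 : 𝓞 K) : K) = (d : K) ^ 2 * (p.1 : K) := by push_cast; rfl
    have e2 : ((d ^ 3 * p.2 : 𝓞 K) : K) = (d : K) ^ 3 * (p.2 : K) := by push_cast; rfl
    unfold twist
    rw [e1, e2, map_mul, map_mul, map_pow, map_pow]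
  unfold Triv
  rw [e]
  constructor
  · rintro ⟨h1, h2, h3⟩
    exact ⟨h1, (@odd_iff _ _ h1).1 h2, h3⟩
  · rintro ⟨h1, h2, h3⟩
    exact ⟨h1, (@odd_iff _ _ h1).2 h2, h3⟩

omit [NumberField K] in
private theorem under_iff {L : Type} [Field L] [NumberField L] [Algebra K L]
    {v : HeightOneSpectrum (𝓞 K)} {w : HeightOneSpectrum (𝓞 L)} :
    w.asIdeal.under (𝓞 K) = v.asIdeal ↔ H76PP.dn K w = v :=
  ⟨fun h => HeightOneSpectrum.ext h, fun h => by rw [← h]; rfl⟩

private theorem ram_iff {F : Type} [Field F] [Algebra K F] {v : HeightOneSpectrum (𝓞 K)} :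
    v ∈ Ramified K F ↔ H30ZO.RamF K F v := by
  refine exists_congr fun N => exists_congr fun hN => exists_congr fun V => ?_
  rw [under_iff]
  constructor
  · rintro ⟨h1, h2⟩
    refine ⟨h1, ?_⟩
    rw [← h1] at h2
    exact h2
  · rintro ⟨h1, h2⟩
    refine ⟨h1, ?_⟩
    rw [← h1]
    exact h2

private theorem adm_iff {S : Finset (HeightOneSpectrum (𝓞 K))} {p : 𝓞 K × 𝓞 K} {L : Type} [Field L]
    [Algebra K L] : Admissible S p L ↔ H30MQ.AdmM K L S p := by
  constructor
  · rintro ⟨h1, h2, h3⟩
    exact ⟨h1, h2, fun v => (h3 v).imp_right fun h => h.imp_right fun h =>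
      ⟨h.1, fun h4 => h.2 (ram_iff.2 h4)⟩⟩
  · rintro ⟨h1, h2, h3⟩
    exact ⟨h1, h2, fun v => (h3 v).imp_right fun h => h.imp_right fun h =>
      ⟨h.1, fun h4 => h.2 (ram_iff.1 h4)⟩⟩

private theorem good_of {F : Type} [Field F] [Algebra K F] {S : Finset (HeightOneSpectrum (𝓞 K))}
    {p : 𝓞 K × 𝓞 K} (h : H88AB.Cnc K F S p) : Good F S p := by
  refine ⟨h.ne, ?_, ?_, ?_⟩
  · intro N hN h2
    exact adm_iff.2 (h.adm N hN h2)
  · intro L _ _ hL d hd hs M _
    exact triv_iff.2 (h.triv L (adm_iff.1 hL) d hd hs M)
  · intro L F' _ _ _ _ _ _ _ _ hL hgen M _ m hm hs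
    exact h.fin L F' (adm_iff.1 hL) hgen M m hm hs

omit [NumberField K] in
private theorem two_mem {M : Type} [Field M] [NumberField M] [Algebra K M]
    {p : HeightOneSpectrum (𝓞 K)} (hp : (2 : 𝓞 K) ∈ p.asIdeal) {w : HeightOneSpectrum (𝓞 M)}
    (hw : H76PP.dn K w = p) : (2 : 𝓞 M) ∈ w.asIdeal := by
  subst hw
  have h3 : algebraMap (𝓞 K) (𝓞 M) 2 ∈ w.asIdeal := hp
  rwa [map_ofNat] at h3

private theorem in_dec {M : Type} [Field M] [NumberField M] [Algebra K M]
    {w : HeightOneSpectrum (𝓞 M)} {τ : M ≃ₐ[K] M} (h : τ ∈ Inertia K w) : τ ∈ Dec K w := by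
  refine H76AB.stb_of_mem fun x => ?_
  have h1 : τ • x - x ∈ w.asIdeal := h x
  constructor
  · intro hx
    have h2 := w.asIdeal.add_mem h1 hx
    rwa [sub_add_cancel] at h2
  · intro hx
    have h2 := w.asIdeal.sub_mem hx h1
    rwa [sub_sub_cancel] at h2

/-- Let `K` be a number field and `F / K` a Galois extension, finite or infinite, such that for all number
fields `M` between `K` and `F` which are Galois over `K` the degree of `M / K` is a power of two, and for
all primes `w` of `M` above `2` the decomposition group of `w` is abelian and all its subgroups are normal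
in `Gal(M / K)`.  If `F / K` is infinite, suppose also that finitely many primes of `K` are ramified in
`F`, that infinitely many primes of `K` split completely in `F`, and that every prime of `K` above `2`
splits completely in `F` or has property (V).  Then there are a finite set `S` of primes of `K` and
`c > 0` such that for all large `X` at least `c * #(Box K X)` of the curves `y² = x³ + A x + B`,
`(A, B) ∈ Box K X`, with pairwise different `j`-invariants, satisfy `Good F S`. -/
theorem result (K : Type) [Field K] [NumberField K] (F : Type) [Field F] [Algebra K F] [IsGalois K F]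
    (hdeg : ∀ (M : IntermediateField K F) [NumberField M], IsGalois K M →
      ∃ r : ℕ, Module.finrank K M = 2 ^ r)
    (hdec : ∀ (M : IntermediateField K F) [NumberField M], IsGalois K M →
      ∀ w : HeightOneSpectrum (𝓞 M), (2 : 𝓞 M) ∈ w.asIdeal →
        (∀ σ ∈ Dec K w, ∀ τ ∈ Dec K w, σ * τ = τ * σ) ∧
        ∀ H : Subgroup (M ≃ₐ[K] M), H ≤ Dec K w → H.Normal)
    (hinf : ¬ FiniteDimensional K F → (Ramified K F).Finite ∧ (Split K F).Infinite ∧
      ∀ p : HeightOneSpectrum (𝓞 K), (2 : 𝓞 K) ∈ p.asIdeal → p ∈ Split K F ∨ PropV K F p) :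
    ∃ (S : Finset (HeightOneSpectrum (𝓞 K))) (c X₀ : ℝ), 0 < c ∧ ∀ X : ℝ, X₀ ≤ X →
      ∃ G : Finset (𝓞 K × 𝓞 K), c * ((Box K X).ncard : ℝ) ≤ (G.card : ℝ) ∧
        (∀ p ∈ G, p ∈ Box K X ∧ Good F S p) ∧
        ∀ p ∈ G, ∀ q ∈ G, p ≠ q → p.1 ^ 3 * q.2 ^ 2 ≠ q.1 ^ 3 * p.2 ^ 2 := by
  have hbox : ∀ X : ℝ, Box K X = H76PP.Bx K X := by
    intro X
    ext p
    exact ⟨fun h => ⟨fun s => (h s).1, fun s => (h s).2⟩, fun h s => ⟨h.1 s, h.2 s⟩⟩
  have hpos : H88AB.PosP K F := by
    by_cases hfin : FiniteDimensional K F
    · -- finite extensions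
      have _ : NumberField F := NumberField.of_module_finite K F
      have _ : NumberField (⊤ : IntermediateField K F) := NumberField.of_module_finite K _
      have _ : IsGalois K (⊤ : IntermediateField K F) :=
        IsGalois.of_algEquiv IntermediateField.topEquiv.symm
      obtain ⟨r, hr⟩ := hdeg ⊤ inferInstance
      have hF : H30MG.HypH K (⊤ : IntermediateField K F) := by
        intro w hw
        obtain ⟨h1, h2⟩ := hdec ⊤ inferInstance w (by
          have h3 : algebraMap (𝓞 K) (𝓞 (⊤ : IntermediateField K F)) 2 ∈ w.asIdeal := hw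
          rwa [map_ofNat] at h3)
        refine ⟨h1, fun x hx y => ?_⟩
        have h3 : Subgroup.zpowers x ≤ Dec K w := (Subgroup.zpowers_le).2 hx
        exact (h2 _ h3).conj_mem x (Subgroup.mem_zpowers x) y
      exact H88AB.posP_fin H30MG.existsCfgMG K (H36MX.hilb K) (H36MX.conicSplit K) F
        ⟨r, by rw [← hr, IntermediateField.finrank_top']⟩
        (H88AB.hypH_iso IntermediateField.topEquiv hF)
    · -- infinite extensions
      obtain ⟨hram, hspl, h2⟩ := hinf hfin
      have hram' : {u | H30ZO.RamF K F u}.Finite := hram.subset fun u hu => ram_iff.2 hu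
      refine H76IN.posP_infinite K (H36MX.hilb K) (H36MX.conicSplit K) F hfin hdeg hram' hspl
        fun p hp => (h2 p hp).imp_right fun h => ?_
      obtain ⟨n, h3, h4⟩ := h
      refine ⟨2 ^ n, n, fun M _ hM => ⟨fun W hW => ?_, fun W hW x hx y => ?_, fun W hW => ?_⟩, ?_⟩
      · exact (hdec M hM W (two_mem hp hW)).1
      · have h5 : Subgroup.zpowers x ≤ Dec K W := (Subgroup.zpowers_le).2 hx
        exact ((hdec M hM W (two_mem hp hW)).2 _ h5).conj_mem x (Subgroup.mem_zpowers x) y
      · exact h3 M hM W (under_iff.2 hW)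
      · refine h4.imp (fun h M _ hM W hW => ?_) fun h M _ hM W hW σ hσ => ?_
        · obtain ⟨⟨c, hc⟩, hgen⟩ := (h M hM W (under_iff.2 hW)).exists_generator
          refine ⟨c, hc, fun y hy => ?_⟩
          obtain ⟨i, hi⟩ := Subgroup.mem_zpowers_iff.1 (hgen ⟨y, hy⟩)
          exact Subgroup.mem_zpowers_iff.2 ⟨i, congrArg Subtype.val hi⟩
        · obtain ⟨τ, hτ, he⟩ := h M hM W (under_iff.2 hW) σ hσ
          exact ⟨τ, in_dec hτ, hτ, he⟩
  obtain ⟨S, c, X₀, hc, h⟩ := hpos
  refine ⟨S, c, X₀, hc, fun X hX => ?_⟩
  obtain ⟨G, h1, h3, h4⟩ := h X hX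
  rw [hbox X]
  exact ⟨G, h4, fun p hp => ⟨(h1 p hp).1, good_of (h1 p hp).2⟩,
    fun p hp q hq hne h5 => hne (h3 p hp q hq h5)⟩

end Pool.Agent.Results.MP_78d38b_nt.TwoPowerExtensions
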